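import Pool.Agent.T9h98.EP.Defs

/-!
# Project EP, piece CT: a face that contains the simplex of type `{0, 1, 2, 3}` properly is wide
-/

set_option autoImplicit false

open Set
open scoped RealInnerProductSpace

namespace Pool.Agent.T9h46.EP

open Pool.Agent.T9h98.DC Pool.Agent.T9h98.EP

theorem adj_eq {d : ℕ} (D : RD d) {i j : Fin d} (h : j < i)
    (h' : ((i : ℕ) = 4 ∧ (j : ℕ) = 2) ∨ ((i : ℕ) ≠ 4 ∧ (j : ℕ) + 1 = i)) :
    ⟪D.α j, D.α i⟫ = -D.c := by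
  rw [real_inner_comm, D.adj i j h, if_pos h']

theorem adj_ne {d : ℕ} (D : RD d) {i j : Fin d} (h : j < i)
    (h' : ¬(((i : ℕ) = 4 ∧ (j : ℕ) = 2) ∨ ((i : ℕ) ≠ 4 ∧ (j : ℕ) + 1 = i))) :
    ⟪D.α j, D.α i⟫ = 0 := by
  rw [real_inner_comm, D.adj i j h, if_neg h']

theorem step {d : ℕ} (D : RD d) {i : Fin d} {v : E d} (hv : v ∈ D.V) (h : ⟪v, D.α i⟫ = D.c) :
    v - D.α i ∈ D.V := by
  have := D.refl i v hv
  rwa [h, div_self D.cpos.ne', one_smul] at this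

theorem fix {d : ℕ} (D : RD d) (T : Finset (Fin d)) (hT : ∀ i ∈ T, (i : ℕ) < 4) :
    ∀ g ∈ D.W (Finset.univ.filter fun i : Fin d => 5 ≤ (i : ℕ)),
      g D.ω = D.ω ∧ ∀ i ∈ T, g (D.α i) = D.α i := by
  intro g hg
  unfold RD.W at hg
  induction hg using Subgroup.closure_induction with
  | mem g hg =>
    obtain ⟨j, hj, rfl⟩ := hg
    have hj5 : 5 ≤ (j : ℕ) := by simpa using hj
    refine ⟨?_, fun i hi => ?_⟩
    · rw [D.s_apply, D.ring, if_neg (by omega), zero_div, zero_smul, sub_zero]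
    · have hi4 := hT i hi
      have hij : i < j := Fin.lt_def.2 (by omega)
      rw [D.s_apply, adj_ne D hij (by omega), zero_div, zero_smul, sub_zero]
  | one => exact ⟨rfl, fun _ _ => rfl⟩
  | mul g g' _ _ h1 h2 =>
    refine ⟨?_, fun i hi => ?_⟩
    · show g (g' D.ω) = D.ω
      rw [h2.1, h1.1]
    · show g (g' (D.α i)) = D.α i
      rw [h2.2 i hi, h1.2 i hi]
  | inv g _ h1 =>
    refine ⟨?_, fun i hi => ?_⟩
    · exact (g.symm_apply_eq).2 h1.1.symm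
    · exact (g.symm_apply_eq).2 (h1.2 i hi).symm

theorem ct : S_CT := by
  intro hSPAN hCONE hGRP hFC hWIDE d D T hT F hF hHF
  classical
  have hd := D.hd
  have hc := D.cpos
  obtain ⟨-, hspan, -, -⟩ := hSPAN d D
  obtain ⟨hcone, -, hmax⟩ := hCONE hSPAN d D
  obtain ⟨hW, hWdom, -, hconn⟩ := hGRP hSPAN hCONE d D
  obtain ⟨hhull, -, -, -⟩ := hFC hSPAN hCONE hGRP d D
  have hTc : RD.Conn T := by
    intro i hi j hj
    have h1 := (Finset.mem_filter.1 hj).2.1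
    have h2 : (j : ℕ) < i := h1
    have h3 := (hT i).1 hi
    exact (hT j).2 (by omega)
  obtain ⟨l, hl⟩ := hF.2 hF.1
  obtain ⟨a, ha⟩ : ∃ a : E d, ∀ x, l x = ⟪a, x⟫ :=
    ⟨(InnerProductSpace.toDual ℝ (E d)).symm l, fun x => by
      rw [InnerProductSpace.toDual_symm_apply]⟩
  have hVP : D.V ⊆ D.P := subset_convexHull ℝ _
  have hPmax : ∀ v ∈ D.P, (∀ u ∈ D.V, ⟪a, u⟫ ≤ ⟪a, v⟫) → v ∈ F := by
    intro v hv hu
    rw [hl]
    refine ⟨hv, fun y hy => ?_⟩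
    rw [ha v]
    have h1 : D.P ⊆ {y | l y ≤ ⟪a, v⟫} :=
      convexHull_min (fun u hu' => by show l u ≤ _; rw [ha]; exact hu u hu')
        (convex_halfSpace_le l.toLinearMap.isLinear _)
    exact h1 hy
  have hFmax : ∀ v ∈ F, ∀ u ∈ D.V, ⟪a, u⟫ ≤ ⟪a, v⟫ := by
    intro v hv u hu
    rw [hl] at hv
    have h1 := hv.2 u (hVP hu)
    rwa [ha, ha] at h1
  have hVTF : D.VT T ⊆ F := (subset_convexHull ℝ _).trans hHF.1
  have haT : ∀ i ∈ T, ⟪a, D.α i⟫ = 0 := by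
    intro i hi
    have h1 : D.α i ∈ vectorSpan ℝ (D.VT T) := by
      rw [(hspan T hTc).1]
      exact Submodule.subset_span ⟨i, hi, rfl⟩
    have h2 : vectorSpan ℝ (D.VT T) ≤ LinearMap.ker l.toLinearMap := by
      rw [vectorSpan_def, Submodule.span_le]
      rintro _ ⟨x, hx, y, hy, rfl⟩
      rw [SetLike.mem_coe, LinearMap.mem_ker]
      show l (x - y) = 0
      have h3 := hFmax x (hVTF hx) y hy.1
      have h4 := hFmax y (hVTF hy) x hx.1
      rw [map_sub, ha, ha]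
      linarith
    have h3 := h2 h1
    rw [LinearMap.mem_ker] at h3
    rw [← ha]
    exact h3
  obtain ⟨h, hhW, hhdom⟩ := hWdom (Finset.univ.filter fun i : Fin d => 5 ≤ (i : ℕ)) a
  obtain ⟨hfω, hfα⟩ := fix D T (fun i hi => (hT i).1 hi) h hhW
  have hfixT : ∀ v ∈ D.VT T, h v = v := by
    intro v hv
    have h3 : ∀ x ∈ Submodule.span ℝ (D.α '' (T : Set (Fin d))), h x = x := by
      intro x hx
      induction hx using Submodule.span_induction with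
      | mem x hx =>
        obtain ⟨i, hi, rfl⟩ := hx
        exact hfα i hi
      | zero => exact map_zero h
      | add x y _ _ hx hy => rw [map_add, hx, hy]
      | smul r x _ hx => rw [map_smul, hx]
    have h4 := h3 _ hv.2
    rw [map_sub, hfω] at h4
    exact sub_right_injective h4
  have hhV : h '' D.V = D.V := (hW _ h hhW).1
  have ha'T : ∀ i ∈ T, ⟪h a, D.α i⟫ = 0 := by
    intro i hi
    rw [← hfα i hi, h.inner_map_map]
    exact haT i hi
  have hmaxT : ∀ v ∈ D.VT T, ∀ u ∈ D.V, ⟪h a, u⟫ ≤ ⟪h a, v⟫ := by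
    intro v hv u hu
    obtain ⟨u', hu', rfl⟩ : u ∈ h '' D.V := by rw [hhV]; exact hu
    rw [← hfixT v hv, h.inner_map_map, h.inner_map_map]
    exact hFmax v (hVTF hv) u' hu'
  -- the vector `u`
  obtain ⟨i0, e0⟩ : ∃ i : Fin d, (i : ℕ) = 0 := ⟨⟨0, by omega⟩, rfl⟩
  obtain ⟨i1, e1⟩ : ∃ i : Fin d, (i : ℕ) = 1 := ⟨⟨1, by omega⟩, rfl⟩
  obtain ⟨i2, e2⟩ : ∃ i : Fin d, (i : ℕ) = 2 := ⟨⟨2, by omega⟩, rfl⟩
  obtain ⟨i4, e4⟩ : ∃ i : Fin d, (i : ℕ) = 4 := ⟨⟨4, by omega⟩, rfl⟩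
  have k01 : ⟪D.α i0, D.α i1⟫ = -D.c := adj_eq D (Fin.lt_def.2 (by omega)) (by omega)
  have k02 : ⟪D.α i0, D.α i2⟫ = 0 := adj_ne D (Fin.lt_def.2 (by omega)) (by omega)
  have k12 : ⟪D.α i1, D.α i2⟫ = -D.c := adj_eq D (Fin.lt_def.2 (by omega)) (by omega)
  have k04 : ⟪D.α i0, D.α i4⟫ = 0 := adj_ne D (Fin.lt_def.2 (by omega)) (by omega)
  have k14 : ⟪D.α i1, D.α i4⟫ = 0 := adj_ne D (Fin.lt_def.2 (by omega)) (by omega)
  have k24 : ⟪D.α i2, D.α i4⟫ = -D.c := adj_eq D (Fin.lt_def.2 (by omega)) (by omega)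
  have r0 : ⟪D.ω, D.α i0⟫ = D.c := by rw [D.ring, if_pos e0]
  have r1 : ⟪D.ω, D.α i1⟫ = 0 := by rw [D.ring, if_neg (by omega)]
  have r2 : ⟪D.ω, D.α i2⟫ = 0 := by rw [D.ring, if_neg (by omega)]
  have r4 : ⟪D.ω, D.α i4⟫ = 0 := by rw [D.ring, if_neg (by omega)]
  have m0 : D.ω - D.α i0 ∈ D.V := step D D.mem r0
  have m1 : D.ω - D.α i0 - D.α i1 ∈ D.V := step D m0 (by
    rw [inner_sub_left, r1, k01]; ring)
  have m2 : D.ω - D.α i0 - D.α i1 - D.α i2 ∈ D.V := step D m1 (by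
    rw [inner_sub_left, inner_sub_left, r2, k02, k12]; ring)
  have m4 : D.ω - D.α i0 - D.α i1 - D.α i2 - D.α i4 ∈ D.V := step D m2 (by
    rw [inner_sub_left, inner_sub_left, inner_sub_left, r4, k04, k14, k24]; ring)
  have hu : D.ω - D.α i0 - D.α i1 - D.α i2 ∈ D.VT T := by
    refine ⟨m2, ?_⟩
    have h1 : D.ω - (D.ω - D.α i0 - D.α i1 - D.α i2) = D.α i0 + D.α i1 + D.α i2 := by abel
    rw [h1]
    have h2 : ∀ i : Fin d, (i : ℕ) < 4 →
        D.α i ∈ Submodule.span ℝ (D.α '' (T : Set (Fin d))) := fun i hi =>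
      Submodule.subset_span ⟨i, (hT i).2 hi, rfl⟩
    exact Submodule.add_mem _ (Submodule.add_mem _ (h2 i0 (by omega)) (h2 i1 (by omega)))
      (h2 i2 (by omega))
  have ha4 : 0 ≤ ⟪h a, D.α i4⟫ := by
    have h1 := hmaxT _ hu _ m4
    rw [inner_sub_right _ _ (D.α i4)] at h1
    linarith
  have hdom : ∀ i ∈ (Finset.univ : Finset (Fin d)), 0 ≤ ⟪h a, D.α i⟫ := by
    intro i _
    rcases lt_trichotomy (i : ℕ) 4 with h1 | h1 | h1
    · exact (ha'T i ((hT i).2 h1)).ge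
    · have h2 : i = i4 := Fin.ext (h1.trans e4.symm)
      rw [h2]
      exact ha4
    · exact hhdom i (by simp; omega)
  have hVuniv : ∀ v ∈ D.V, v ∈ D.VT Finset.univ := by
    intro v hv
    refine ⟨hv, ?_⟩
    obtain ⟨k, -, hk⟩ := hcone v hv
    rw [hk]
    exact Submodule.sum_mem _ fun i _ => Submodule.smul_mem _ _
      (Submodule.subset_span ⟨i, by simp, rfl⟩)
  obtain ⟨T', hT'⟩ : ∃ T' : Finset (Fin d), T' = Finset.univ.filter fun i => ⟪h a, D.α i⟫ = 0 :=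
    ⟨_, rfl⟩
  have hTT' : ∀ i : Fin d, (i : ℕ) < 4 → i ∈ T' := by
    intro i hi
    rw [hT']
    exact Finset.mem_filter.2 ⟨Finset.mem_univ _, ha'T i ((hT i).2 hi)⟩
  have hchar : ∀ v, v ∈ D.VT T' ↔ v ∈ D.V ∧ ∀ u ∈ D.V, ⟪h a, u⟫ ≤ ⟪h a, v⟫ := by
    intro v
    rw [hT', ← hmax Finset.univ (h a) hdom]
    constructor
    · rintro ⟨h1, h2⟩
      exact ⟨h1.1, fun u hu => h2 u (hVuniv u hu)⟩
    · rintro ⟨h1, h2⟩
      exact ⟨hVuniv v h1, fun u hu => h2 u hu.1⟩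
  by_cases h4 : i4 ∈ T'
  · have h5 : ∀ i : Fin d, (i : ℕ) < 5 → i ∈ T' := by
      intro i hi
      rcases Nat.lt_or_ge (i : ℕ) 4 with h1 | h1
      · exact hTT' i h1
      · have h2 : i = i4 := Fin.ext (by omega)
        rw [h2]
        exact h4
    obtain ⟨x, hx, y, hy, hxy⟩ := hWIDE d D T' h5
    have hFc : Convex ℝ F := by
      rw [hhull F hF]
      exact convex_convexHull ℝ _
    have hsub : D.H T' ⊆ h '' F := by
      refine convexHull_min ?_ (hFc.is_linear_image ⟨map_add h, map_smul h⟩)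
      intro v hv
      obtain ⟨h1, h2⟩ := (hchar v).1 hv
      obtain ⟨v', hv', rfl⟩ : v ∈ h '' D.V := by rw [hhV]; exact h1
      refine ⟨v', hPmax v' (hVP hv') fun u hu => ?_, rfl⟩
      have h3 := h2 (h u) (hhV ▸ ⟨u, hu, rfl⟩)
      rwa [h.inner_map_map, h.inner_map_map] at h3
    obtain ⟨x', hx', rfl⟩ := hsub hx
    obtain ⟨y', hy', rfl⟩ := hsub hy
    rw [h.dist_map] at hxy
    exact ⟨x', hx', y', hy', hxy⟩
  · exfalso
    have h5 : (T'.filter fun i => RD.anc i ⊆ T') = T := by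
      ext i
      rw [Finset.mem_filter, hT]
      constructor
      · rintro ⟨h1, h2⟩
        by_contra hcon
        have h3 : (i : ℕ) ≠ 4 := fun h3 => h4 (by
          have : i = i4 := Fin.ext (h3.trans e4.symm)
          rwa [this] at h1)
        exact h4 (h2 (Finset.mem_filter.2 ⟨Finset.mem_univ _, Fin.lt_def.2 (by omega), by omega⟩))
      · intro h1
        refine ⟨hTT' i h1, fun j hj => ?_⟩
        have h2 : (j : ℕ) < i := (Finset.mem_filter.1 hj).2.1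
        exact hTT' j (by omega)
    have h6 : D.VT T' = D.VT T := by
      rw [(hconn T').2, h5]
    have h7 : D.V ∩ F ⊆ D.VT T := by
      rintro v ⟨hv, hvF⟩
      have h8 : h v ∈ D.VT T' := (hchar _).2 ⟨hhV ▸ ⟨v, hv, rfl⟩, fun u hu => by
        obtain ⟨u', hu', rfl⟩ : u ∈ h '' D.V := by rw [hhV]; exact hu
        rw [h.inner_map_map, h.inner_map_map]
        exact hFmax v hvF u' hu'⟩
      rw [h6] at h8
      have h9 : h v = v := h.injective (hfixT _ h8)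
      rwa [h9] at h8
    refine hHF.2 ?_
    rw [hhull F hF]
    exact convexHull_mono h7

end Pool.Agent.T9h46.EP
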